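import Pool.Agent.H379.TN.Stms

/-!
# Project TN, part G: the skew group algebra of an involution
-/

set_option autoImplicit false
set_option linter.unusedSectionVars false

open CategoryTheory CategoryTheory.Abelian
open Pool.Agent.H379.TN Pool.Agent.H190.NK

namespace Pool.Agent.H399.TN

/-- An involutive automorphism. -/
structure Iv (K T : Type) [Field K] [Ring T] [Algebra K T] where
  s : T ≃ₐ[K] T
  ss : ∀ t, s (s t) = t

section Sk

variable {K T : Type} [Field K] [Ring T] [Algebra K T]

/-- The skew group algebra. -/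
def Sk (_ : Iv K T) : Type := T × T

variable (v : Iv K T)

namespace Sk

/-- first component -/
def a (x : Sk v) : T := x.1
/-- second component -/
def b (x : Sk v) : T := x.2
/-- the element with the given components -/
def mk (p q : T) : Sk v := (p, q)

@[simp] theorem a_mk (p q : T) : a v (mk v p q) = p := rfl
@[simp] theorem b_mk (p q : T) : b v (mk v p q) = q := rfl

variable {v} in
theorem ext {x x' : Sk v} (h1 : a v x = a v x') (h2 : b v x = b v x') : x = x' := Prod.ext h1 h2

instance : AddCommGroup (Sk v) := inferInstanceAs (AddCommGroup (T × T))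
instance : Module K (Sk v) := inferInstanceAs (Module K (T × T))
instance : Module T (Sk v) := inferInstanceAs (Module T (T × T))
instance : Mul (Sk v) :=
  ⟨fun x y => mk v (a v x * a v y + b v x * v.s (b v y)) (a v x * b v y + b v x * v.s (a v y))⟩
instance : One (Sk v) := ⟨mk v 1 0⟩

@[simp] theorem a_add (x y : Sk v) : a v (x + y) = a v x + a v y := rfl
@[simp] theorem b_add (x y : Sk v) : b v (x + y) = b v x + b v y := rfl
@[simp] theorem a_zero : a v (0 : Sk v) = 0 := rfl
@[simp] theorem b_zero : b v (0 : Sk v) = 0 := rfl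
@[simp] theorem a_one : a v (1 : Sk v) = 1 := rfl
@[simp] theorem b_one : b v (1 : Sk v) = 0 := rfl
@[simp] theorem a_mul (x y : Sk v) : a v (x * y) = a v x * a v y + b v x * v.s (b v y) := rfl
@[simp] theorem b_mul (x y : Sk v) : b v (x * y) = a v x * b v y + b v x * v.s (a v y) := rfl
@[simp] theorem a_ksmul (c : K) (y : Sk v) : a v (c • y) = c • a v y := rfl
@[simp] theorem b_ksmul (c : K) (y : Sk v) : b v (c • y) = c • b v y := rfl
@[simp] theorem a_tsmul (c : T) (y : Sk v) : a v (c • y) = c * a v y := rfl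
@[simp] theorem b_tsmul (c : T) (y : Sk v) : b v (c • y) = c * b v y := rfl

instance : Ring (Sk v) :=
  { (inferInstance : AddCommGroup (Sk v)), (inferInstance : Mul (Sk v)),
    (inferInstance : One (Sk v)) with
    left_distrib := fun x y z => by
      apply ext
      · simp only [a_mul, a_add, b_add, map_add, mul_add]; abel
      · simp only [b_mul, a_add, b_add, map_add, mul_add]; abel
    right_distrib := fun x y z => by
      apply ext
      · simp only [a_mul, a_add, b_add, add_mul]; abel
      · simp only [b_mul, a_add, b_add, add_mul]; abel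
    zero_mul := fun x => by
      apply ext
      · simp only [a_mul, a_zero, b_zero, zero_mul, add_zero]
      · simp only [b_mul, a_zero, b_zero, zero_mul, add_zero]
    mul_zero := fun x => by
      apply ext
      · simp only [a_mul, a_zero, b_zero, mul_zero, add_zero, map_zero]
      · simp only [b_mul, a_zero, b_zero, mul_zero, add_zero, map_zero]
    mul_assoc := fun x y z => by
      apply ext
      · simp only [a_mul, b_mul, map_add, map_mul, v.ss, mul_add, add_mul, mul_assoc]; abel
      · simp only [a_mul, b_mul, map_add, map_mul, v.ss, mul_add, add_mul, mul_assoc]; abel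
    one_mul := fun x => by
      apply ext
      · simp only [a_mul, a_one, b_one, one_mul, zero_mul, add_zero]
      · simp only [b_mul, a_one, b_one, one_mul, zero_mul, add_zero]
    mul_one := fun x => by
      apply ext
      · simp only [a_mul, a_one, b_one, mul_one, map_zero, mul_zero, add_zero]
      · simp only [b_mul, a_one, b_one, mul_one, map_one, mul_zero, zero_add] }

instance : Algebra K (Sk v) := Algebra.ofModule
  (fun c x y => by
    apply ext
    · simp only [a_mul, a_ksmul, b_ksmul, smul_add, smul_mul_assoc]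
    · simp only [b_mul, a_ksmul, b_ksmul, smul_add, smul_mul_assoc])
  (fun c x y => by
    apply ext
    · simp only [a_mul, a_ksmul, b_ksmul, smul_add, mul_smul_comm, map_smul]
    · simp only [b_mul, a_ksmul, b_ksmul, smul_add, mul_smul_comm, map_smul])

instance [Module.Finite K T] : Module.Finite K (Sk v) :=
  inferInstanceAs (Module.Finite K (T × T))

instance : Module.Free T (Sk v) := inferInstanceAs (Module.Free T (T × T))

instance : IsScalarTower T (Sk v) (Sk v) :=
  ⟨fun c x y => by
    apply ext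
    · simp only [a_mul, a_tsmul, b_tsmul, smul_eq_mul, mul_add, mul_assoc]
    · simp only [b_mul, a_tsmul, b_tsmul, smul_eq_mul, mul_add, mul_assoc]⟩

/-- the group element -/
def g : Sk v := mk v 0 1

@[simp] theorem a_g : a v (g v) = 0 := rfl
@[simp] theorem b_g : b v (g v) = 1 := rfl

theorem g_mul_g : g v * g v = 1 := by
  apply ext
  · simp only [a_mul, a_g, b_g, map_one, mul_one, mul_zero, zero_add, a_one]
  · simp only [b_mul, a_g, b_g, map_zero, mul_zero, zero_mul, add_zero, b_one]

theorem g_mul_t (t : T) : g v * (t • (1 : Sk v)) = v.s t • g v := by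
  apply ext
  · simp only [a_mul, a_g, b_g, a_tsmul, b_tsmul, a_one, b_one, mul_zero, zero_mul, map_zero,
      add_zero]
  · simp only [b_mul, a_g, b_g, a_tsmul, b_tsmul, a_one, b_one, mul_one, one_mul, mul_zero,
      zero_add]

theorem decomp (x : Sk v) : x = a v x • (1 : Sk v) + b v x • g v := by
  apply ext
  · simp only [a_add, a_tsmul, a_one, mul_one, a_g, mul_zero, add_zero]
  · simp only [b_add, b_tsmul, b_one, mul_one, b_g, mul_zero, zero_add]

section mod

variable {V : Type} [AddCommGroup V] [Module T V] [Module (Sk v) V] [IsScalarTower T (Sk v) V]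

theorem smul_eq (x : Sk v) (z : V) : x • z = a v x • z + b v x • (g v • z) := by
  conv_lhs => rw [decomp v x]
  rw [add_smul, smul_assoc, smul_assoc, one_smul]

omit [Module T V] [IsScalarTower T (Sk v) V] in
theorem g_smul_g (z : V) : g v • (g v • z) = z := by
  rw [← mul_smul, g_mul_g, one_smul]

theorem g_smul_t (t : T) (z : V) : g v • (t • z) = v.s t • (g v • z) := by
  have h : t • z = (t • (1 : Sk v)) • z := by rw [smul_assoc, one_smul]
  rw [h, ← mul_smul, g_mul_t, smul_assoc]

end mod

end Sk

end Sk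

section ext

variable {R : Type} [Ring R] {S : ShortComplex (ModuleCat.{0} R)} (hS : S.ShortExact)

include hS

theorem contra_back [Projective S.X₂] (Y : ModuleCat.{0} R) (n : ℕ)
    (h : Subsingleton (Ext S.X₃ Y (n + 2))) : Subsingleton (Ext S.X₁ Y (n + 1)) := by
  refine subsingleton_of_forall_eq 0 fun x => ?_
  obtain ⟨x₂, hx₂⟩ := Ext.contravariant_sequence_exact₁ hS Y x
    (show 1 + (n + 1) = n + 2 by omega) (Subsingleton.elim _ _)
  rw [← hx₂, Ext.eq_zero_of_projective x₂, Ext.comp_zero]

theorem contra_lift (Y : ModuleCat.{0} R) (h : Subsingleton (Ext S.X₃ Y 1)) (f : S.X₁ ⟶ Y) :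
    ∃ f' : S.X₂ ⟶ Y, S.f ≫ f' = f := by
  obtain ⟨x₂, hx₂⟩ := Ext.contravariant_sequence_exact₁ hS Y (Ext.mk₀ f)
    (show 1 + 0 = 1 by omega) (Subsingleton.elim _ _)
  obtain ⟨f', rfl⟩ := (Ext.addEquiv₀ (X := S.X₂) (Y := Y)).symm.surjective x₂
  refine ⟨f', ?_⟩
  apply (Ext.addEquiv₀ (X := S.X₁) (Y := Y)).symm.injective
  have : Ext.addEquiv₀.symm (S.f ≫ f') = (Ext.mk₀ S.f).comp (Ext.mk₀ f') (zero_add 0) := by
    rw [Ext.mk₀_comp_mk₀]
    rfl
  rw [this]
  exact hx₂

end ext

section transfer

variable {K T : Type} [Field K] [CharZero K] [Ring T] [Algebra K T] (v : Iv K T)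

/-- one half -/
def hf : Sk v := algebraMap K (Sk v) (1 / 2)

omit [CharZero K] in
theorem hf_comm (x : Sk v) : hf v * x = x * hf v := Algebra.commutes _ _

theorem hf_two : hf v + hf v = 1 := by
  rw [hf, ← map_add, add_halves, map_one]

section avg

variable {V W : Type} [AddCommGroup V] [Module T V] [Module (Sk v) V] [IsScalarTower T (Sk v) V]
  [AddCommGroup W] [Module T W] [Module (Sk v) W] [IsScalarTower T (Sk v) W]

/-- a T-linear map commuting with g is linear -/
def linOf (f : V →ₗ[T] W) (h : ∀ z, f (Sk.g v • z) = Sk.g v • f z) : V →ₗ[Sk v] W where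
  toFun := f
  map_add' := f.map_add
  map_smul' := fun x z => by
    rw [RingHom.id_apply, Sk.smul_eq v x z, map_add, map_smul, map_smul, h,
      Sk.smul_eq v x (f z)]

omit [CharZero K] in
theorem hf_smul_t (t : T) (w : W) : hf v • (t • w) = t • (hf v • w) := by
  have h : t • w = (t • (1 : Sk v)) • w := by rw [smul_assoc, one_smul]
  have h' : t • (hf v • w) = (t • (1 : Sk v)) • (hf v • w) := by rw [smul_assoc, one_smul]
  rw [h, h', ← mul_smul, ← mul_smul, hf_comm]

/-- the averaged map -/
def avg (f : V →ₗ[T] W) : V →ₗ[Sk v] W :=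
  linOf v
    { toFun := fun z => hf v • (f z + Sk.g v • f (Sk.g v • z))
      map_add' := fun z z' => by
        simp only [map_add, smul_add]; abel
      map_smul' := fun t z => by
        rw [RingHom.id_apply, Sk.g_smul_t, map_smul, map_smul, Sk.g_smul_t, v.ss, ← smul_add,
          hf_smul_t] }
    (fun z => by
      show hf v • (f (Sk.g v • z) + Sk.g v • f (Sk.g v • (Sk.g v • z))) =
        Sk.g v • (hf v • (f z + Sk.g v • f (Sk.g v • z)))
      rw [Sk.g_smul_g, ← mul_smul, ← hf_comm, mul_smul, smul_add (Sk.g v), Sk.g_smul_g, add_comm])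

omit [CharZero K] in
theorem avg_apply (f : V →ₗ[T] W) (z : V) :
    avg v f z = hf v • (f z + Sk.g v • f (Sk.g v • z)) := rfl

theorem avg_of (f : V →ₗ[T] W) (z : V) (h : f (Sk.g v • z) = Sk.g v • f z) :
    avg v f z = f z := by
  rw [avg_apply, h, Sk.g_smul_g, smul_add, ← add_smul, hf_two, one_smul]

end avg

section step

variable {V₁ P V W : Type} [AddCommGroup V₁] [Module T V₁] [Module (Sk v) V₁]
  [IsScalarTower T (Sk v) V₁] [AddCommGroup P] [Module T P] [Module (Sk v) P]
  [IsScalarTower T (Sk v) P] [AddCommGroup V] [Module T V] [Module (Sk v) V]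
  [IsScalarTower T (Sk v) V] [AddCommGroup W] [Module T W] [Module (Sk v) W]
  [IsScalarTower T (Sk v) W] (i : V₁ →ₗ[Sk v] P) (p : P →ₗ[Sk v] V)
  (hi : Function.Injective i) (hp : Function.Surjective p) (h0 : ∀ z, p (i z) = 0)
  (h1 : ∀ z, p z = 0 → ∃ a, i a = z)

include hi hp h0 h1

theorem step_back [Module.Projective T P] (h : EV T V W) : EV T V₁ W := by
  intro m
  have hS := shortExact_of (i.restrictScalars T) (p.restrictScalars T) hi hp h0 h1
  have hP : Projective (ModuleCat.of T P) := inferInstance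
  exact contra_back hS (ModuleCat.of T W) m (h (m + 1))

theorem step_one [Module.Projective T P] [Module.Projective (Sk v) P] (h : EV T V W) :
    Subsingleton (Ext.{0} (ModuleCat.of (Sk v) V) (ModuleCat.of (Sk v) W) 1) := by
  have hS := shortExact_of (i.restrictScalars T) (p.restrictScalars T) hi hp h0 h1
  have hS' := shortExact_of i p hi hp h0 h1
  have hP : Projective (ModuleCat.of (Sk v) P) := inferInstance
  refine contra_one hS' (ModuleCat.of (Sk v) W) ?_
  intro f
  obtain ⟨f', hf'⟩ := contra_lift hS (ModuleCat.of T W) (h 0)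
    (ModuleCat.ofHom (f.hom.restrictScalars T))
  refine ⟨ModuleCat.ofHom (avg v f'.hom), ?_⟩
  have hk : ∀ z : V₁, f'.hom (i z) = f.hom z := fun z =>
    LinearMap.congr_fun (congrArg ModuleCat.Hom.hom hf') z
  ext z
  show avg v f'.hom (i z) = f.hom z
  rw [avg_of v f'.hom _ ?_, hk]
  rw [← map_smul, hk, hk, map_smul]

theorem step_up [Module.Projective (Sk v) P] (n : ℕ)
    (h : Subsingleton (Ext.{0} (ModuleCat.of (Sk v) V₁) (ModuleCat.of (Sk v) W) (n + 1))) :
    Subsingleton (Ext.{0} (ModuleCat.of (Sk v) V) (ModuleCat.of (Sk v) W) (n + 2)) := by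
  have hS' := shortExact_of i p hi hp h0 h1
  have hP : Projective (ModuleCat.of (Sk v) P) := inferInstance
  exact contra_shift hS' _ n h

end step

/-- the free cover -/
noncomputable def cov (V : Type) [AddCommGroup V] [Module (Sk v) V] : (V →₀ Sk v) →ₗ[Sk v] V :=
  Finsupp.linearCombination (Sk v) (id : V → V)

omit [CharZero K] in
theorem cov_surj (V : Type) [AddCommGroup V] [Module (Sk v) V] :
    Function.Surjective (cov v V) :=
  fun z => ⟨Finsupp.single z 1, by simp [cov]⟩

omit [CharZero K] in
theorem cov_zero (V : Type) [AddCommGroup V] [Module (Sk v) V] (z : LinearMap.ker (cov v V)) :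
    cov v V ((LinearMap.ker (cov v V)).subtype z) = 0 := z.2

omit [CharZero K] in
theorem cov_ex (V : Type) [AddCommGroup V] [Module (Sk v) V] (z : V →₀ Sk v)
    (hz : cov v V z = 0) : ∃ a, (LinearMap.ker (cov v V)).subtype a = z := ⟨⟨z, hz⟩, rfl⟩

theorem transfer (W : Type) [AddCommGroup W] [Module T W] [Module (Sk v) W]
    [IsScalarTower T (Sk v) W] (n : ℕ) :
    ∀ (V : Type) [AddCommGroup V] [Module T V] [Module (Sk v) V] [IsScalarTower T (Sk v) V],
      EV T V W → Subsingleton (Ext.{0} (ModuleCat.of (Sk v) V) (ModuleCat.of (Sk v) W) (n + 1)) := by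
  induction n with
  | zero =>
    intro V _ _ _ _ hV
    exact step_one v (LinearMap.ker (cov v V)).subtype (cov v V) (Submodule.injective_subtype _)
      (cov_surj v V) (cov_zero v V) (cov_ex v V) hV
  | succ n ih =>
    intro V _ _ _ _ hV
    have hK : EV T (LinearMap.ker (cov v V)) W :=
      step_back v (LinearMap.ker (cov v V)).subtype (cov v V)
        (Submodule.injective_subtype _) (cov_surj v V) (cov_zero v V) (cov_ex v V) hV
    have h2 := ih (LinearMap.ker (cov v V)) hK
    exact step_up v (LinearMap.ker (cov v V)).subtype (cov v V) (Submodule.injective_subtype _)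
      (cov_surj v V) (cov_zero v V) (cov_ex v V) n h2

end transfer

section frob

variable {K T : Type} [Field K] [Ring T] [Algebra K T] (v : Iv K T)

/-- the Nakayama automorphism -/
def nuu : Sk v ≃ₐ[K] Sk v where
  toFun x := Sk.mk v (Sk.a v x) (-(Sk.b v x))
  invFun x := Sk.mk v (Sk.a v x) (-(Sk.b v x))
  left_inv x := by
    apply Sk.ext
    · rfl
    · exact neg_neg _
  right_inv x := by
    apply Sk.ext
    · rfl
    · exact neg_neg _
  map_mul' x x' := by
    apply Sk.ext
    · simp only [Sk.a_mul, Sk.a_mk, Sk.b_mk, map_neg, neg_mul_neg]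
    · simp only [Sk.b_mul, Sk.a_mk, Sk.b_mk, mul_neg, neg_mul]; abel
  map_add' x x' := by
    apply Sk.ext
    · rfl
    · simp only [Sk.b_add, Sk.b_mk]; abel
  commutes' c := by
    rw [Algebra.algebraMap_eq_smul_one]
    apply Sk.ext
    · rfl
    · simp only [Sk.b_mk, Sk.b_ksmul, Sk.b_one, smul_zero, neg_zero]

theorem a_nuu (x : Sk v) : Sk.a v (nuu v x) = Sk.a v x := rfl
theorem b_nuu (x : Sk v) : Sk.b v (nuu v x) = - Sk.b v x := rfl

/-- the Frobenius form -/
def yy (l : T →ₗ[K] K) (hl1 : ∀ a b, l (a * b) = l (b * a))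
    (hl2 : ∀ b, (∀ x, l (x * b) = 0) → b = 0) (hls : ∀ t, l (v.s t) = - l t) : Fr K (Sk v) where
  lam := { toFun := fun x => l (Sk.a v x)
           map_add' := fun x x' => by rw [Sk.a_add, map_add]
           map_smul' := fun c x => by rw [Sk.a_ksmul, map_smul]; rfl }
  nu := nuu v
  nn x := by
    apply Sk.ext
    · rfl
    · exact neg_neg _
  comm x x' := by
    show l (Sk.a v x * Sk.a v x' + Sk.b v x * v.s (Sk.b v x')) =
      l (Sk.a v x' * Sk.a v x + Sk.b v x' * v.s (-(Sk.b v x)))
    rw [map_add, map_add, hl1 (Sk.a v x), map_neg, mul_neg, map_neg]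
    congr 1
    have h : Sk.b v x * v.s (Sk.b v x') = v.s (v.s (Sk.b v x) * Sk.b v x') := by
      rw [map_mul, v.ss]
    rw [h, hls, hl1]
  nondeg x h := by
    have h1 : Sk.a v x = 0 := hl2 _ fun t => by
      have := h (Sk.mk v t 0)
      change l (t * Sk.a v x + 0 * v.s (Sk.b v x)) = 0 at this
      rwa [zero_mul, add_zero] at this
    have h2 : v.s (Sk.b v x) = 0 := hl2 _ fun t => by
      have := h (Sk.mk v 0 t)
      change l (0 * Sk.a v x + t * v.s (Sk.b v x)) = 0 at this
      rwa [zero_mul, zero_add] at this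
    apply Sk.ext
    · exact h1
    · have h3 := congrArg v.s h2
      rw [v.ss, map_zero] at h3
      exact h3

variable {X : Type} [AddCommGroup X] [Module T X]

/-- the module -/
@[reducible] def modX (hX : ∀ (t : T) (x : X), v.s t • x = t • x) : Module (Sk v) X where
  smul p x := Sk.a v p • x + Sk.b v p • x
  one_smul x := by
    show (1 : T) • x + (0 : T) • x = x
    rw [one_smul, zero_smul, add_zero]
  mul_smul p q x := by
    show (Sk.a v p * Sk.a v q + Sk.b v p * v.s (Sk.b v q)) • x +
      (Sk.a v p * Sk.b v q + Sk.b v p * v.s (Sk.a v q)) • x =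
      Sk.a v p • (Sk.a v q • x + Sk.b v q • x) + Sk.b v p • (Sk.a v q • x + Sk.b v q • x)
    simp only [add_smul, mul_smul, hX, smul_add]
    abel
  smul_zero p := by
    show Sk.a v p • (0 : X) + Sk.b v p • (0 : X) = 0
    rw [smul_zero, smul_zero, add_zero]
  smul_add p x x' := by
    show Sk.a v p • (x + x') + Sk.b v p • (x + x') =
      (Sk.a v p • x + Sk.b v p • x) + (Sk.a v p • x' + Sk.b v p • x')
    rw [smul_add, smul_add]
    abel
  add_smul p q x := by
    show (Sk.a v p + Sk.a v q) • x + (Sk.b v p + Sk.b v q) • x =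
      (Sk.a v p • x + Sk.b v p • x) + (Sk.a v q • x + Sk.b v q • x)
    rw [add_smul, add_smul]
    abel
  zero_smul x := by
    show (0 : T) • x + (0 : T) • x = 0
    rw [zero_smul, add_zero]

end frob

theorem s_G : S_G := by
  intro K T _ _ _ _ _ l hl1 hl2 σ hσ hlσ X _ _ _ _ _ _ hX hEnd hproj hEV
  obtain ⟨x0, hx0⟩ := exists_ne (0 : X)
  let v : Iv K T := ⟨σ, hσ⟩
  let _ : Module (Sk v) X := modX v hX
  have hsm : ∀ (p : Sk v) (x : X), p • x = Sk.a v p • x + Sk.b v p • x := fun _ _ => rfl
  have : IsScalarTower K (Sk v) X := ⟨fun c p x => by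
    rw [hsm, hsm, Sk.a_ksmul, Sk.b_ksmul, smul_assoc, smul_assoc, smul_add]⟩
  have : IsScalarTower T (Sk v) X := ⟨fun c p x => by
    rw [hsm, hsm, Sk.a_tsmul, Sk.b_tsmul, mul_smul, mul_smul, smul_add]⟩
  let y : Fr K (Sk v) := yy v l hl1 hl2 hlσ
  let _ : Module T (Tw y X) := inferInstanceAs (Module T X)
  have : IsScalarTower T (Sk v) (Tw y X) := ⟨fun c p x => by
    apply Tw.ext y
    show y.nu (c • p) • Tw.un y x = c • (y.nu p • Tw.un y x)
    rw [hsm, hsm, smul_add]
    show (c * Sk.a v p) • Tw.un y x + (-(c * Sk.b v p)) • Tw.un y x =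
      c • (Sk.a v p • Tw.un y x) + c • ((-(Sk.b v p)) • Tw.un y x)
    rw [mul_smul, ← mul_neg, mul_smul]⟩
  have hE : ∀ f : X →ₗ[Sk v] X, ∃ c : K, ∀ u, f u = c • u := fun f =>
    hEnd (f.restrictScalars T)
  have hc0 : ∀ (φ : X →ₗ[Sk v] Sk v) (ψ : Sk v →ₗ[Sk v] X) (u : X), ψ (φ u) = 0 := by
    intro φ ψ
    obtain ⟨k, hk⟩ := hE (ψ ∘ₗ φ)
    by_cases h0 : k = 0
    · intro u
      have := hk u
      rw [h0, zero_smul] at this
      exact this
    · exfalso
      apply hproj
      refine Module.Projective.of_split (φ.restrictScalars T) (k⁻¹ • (ψ.restrictScalars T)) ?_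
      ext u
      show k⁻¹ • (ψ (φ u)) = u
      rw [show ψ (φ u) = k • u from hk u, smul_smul, inv_mul_cancel₀ h0, one_smul]
  have hs : ∀ c : Module.End (Sk v) (Sk v × X), ∃ k : K, ∀ u : X, (c (0, u)).2 = k • u := by
    intro c
    exact hE (LinearMap.snd (Sk v) (Sk v) X ∘ₗ c ∘ₗ LinearMap.inr (Sk v) (Sk v) X)
  choose p hp using hs
  have huniq : ∀ k k' : K, (∀ u : X, k • u = k' • u) → k = k' := fun k k' h =>
    smul_left_injective K hx0 (h x0)
  let π : Module.End (Sk v) (Sk v × X) →ₐ[K] K :=
    { toFun := p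
      map_one' := huniq _ _ fun u => by
        rw [← hp, one_smul]; rfl
      map_mul' := fun c c' => huniq _ _ fun u => by
        rw [← hp, mul_smul, ← hp c']
        show (c (c' (0, u))).2 = p c • (c' (0, u)).2
        have h1 : c' (0, u) = ((c' (0, u)).1, 0) + (0, (c' (0, u)).2) := by
          ext <;> simp
        have h2 := hc0 (LinearMap.fst (Sk v) (Sk v) X ∘ₗ c' ∘ₗ LinearMap.inr (Sk v) (Sk v) X)
          (LinearMap.snd (Sk v) (Sk v) X ∘ₗ c ∘ₗ LinearMap.inl (Sk v) (Sk v) X) u
        change (c ((c' (0, u)).1, 0)).2 = 0 at h2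
        conv_lhs => rw [h1, map_add, Prod.snd_add, h2, hp, zero_add]
      map_zero' := huniq _ _ fun u => by
        rw [← hp, zero_smul]; rfl
      map_add' := fun c c' => huniq _ _ fun u => by
        rw [← hp, add_smul, ← hp, ← hp]; rfl
      commutes' := fun k => huniq _ _ fun u => by
        rw [← hp]; rfl }
  refine ⟨Sk v, inferInstance, inferInstance, inferInstance, y, X, inferInstance, inferInstance,
    inferInstance, inferInstance, inferInstance, inferInstance, π, hp, ?_, ?_, ?_, hE⟩
  · intro n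
    exact transfer v X n X hEV
  · intro n
    exact transfer v (Tw y X) n X hEV
  · intro f
    ext x
    apply Tw.ext y
    have h1 : Sk.g v • x = x := by
      rw [hsm]
      show (0 : T) • x + (1 : T) • x = x
      rw [zero_smul, one_smul, zero_add]
    have h2 : Tw.un y (f x) = - Tw.un y (f x) := by
      conv_lhs => rw [← h1, map_smul, Tw.un_smul]
      rw [hsm]
      show (0 : T) • Tw.un y (f x) + (-(1 : T)) • Tw.un y (f x) = _
      rw [zero_smul, neg_smul, one_smul, zero_add]
    have h3 : (2 : K) • Tw.un y (f x) = 0 := by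
      rw [two_smul]
      nth_rewrite 1 [h2]
      exact neg_add_cancel _
    exact (smul_eq_zero.mp h3).resolve_left two_ne_zero

end Pool.Agent.H399.TN
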